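import Pool.Agent.Lib.MP_17a322_nt.VD.Defs
import Pool.Agent.Lib.MP_17a322_nt.VN.BC

/-!
# JOB VD D11a: the joint gain

PROOFS. Every term `- log (min 1 (v (a i))) / 4 ^ j i` is `≥ 0` (also for `a i = 0`, where it is `0`). `gjv_nonneg`: `Real.iInf_nonneg`. `gjv_le`: `ciInf_le` (finite index). `dlj_cases`: if `gjv = 0` then `dlj = 1`. Otherwise `gjv > 0`, so all `v (s i t) ≤ 1` and for every `i`
`0 < 4 ^ j i * gjv ≤ - log (min 1 (v (a i)))`; so `a i ≠ 0`, `min 1 (v (a i)) ≤ exp (- 4 ^ j i * gjv) = dlj ^ (4 ^ j i) < 1`, hence `v (a i) = min 1 (v (a i))`.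
`FS_gjv`: if `m = 0` or some `a i = 0` then `gjv` is `0` at all places (the infimum is `≤` the term `0`). Otherwise take one `i` : at almost all places `v (a i) = 1`, the term is `0` (model `BC_FS_gn`, VN/BC: `FS_log_abv`).
`gs_log_dlj`: `log dlj = - gjv`, `gs_const_mul`. `gj_nonneg`, `gj_le`: `gs_nonneg`; `4 ^ j i * gjv ≤ - log (min 1 (v (a i))) ≤ log (max 1 (v (a i)⁻¹))`, `gs_le`, `gs_log_max`, `logHeight₁_inv` (model `gn_le_ht`). `gj_map`: model `gn_map`: `gs_bc` with
`gjv w .. = n * gjv v ..` if `w (algebraMap x) = v x ^ n` (`Real.mul_iInf_of_nonneg`). `gs_single`: for a nonnegative function with `FS` the value at one place is at most the sum: unfold `gs`, `FS`, `Pl` (VJ/Defs); a member of the multiset `archAbsVal` (`Multiset.single_le_sum`), or one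
term of the finite sum (`single_le_finsum`).
-/

namespace Pool.Agent.Lib.MP_17a322_nt.VD

open MvPolynomial Height
open Pool.Agent.Lib.MP_17a322_nt.RO
open Pool.Agent.Lib.MP_17a322_nt.VJ
open Pool.Agent.Lib.MP_17a322_nt.VN

theorem gs_single {K : Type*} [Field K] [AdmissibleAbsValues K] {f : AbsoluteValue K ℝ → ℝ}
    (hf : FS f) (h0 : ∀ v, Pl v → 0 ≤ f v) {v₀ : AbsoluteValue K ℝ} (hv : Pl v₀) :
    f v₀ ≤ gs f := by
  unfold gs
  rcases hv with hv | hv
  · have h1 : f v₀ ≤ (AdmissibleAbsValues.archAbsVal.map f).sum := by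
      refine Multiset.single_le_sum (fun a ha => ?_) _ (Multiset.mem_map_of_mem f hv)
      obtain ⟨v, hv', rfl⟩ := Multiset.mem_map.mp ha
      exact h0 v (Or.inl hv')
    have h2 : 0 ≤ ∑ᶠ v : AdmissibleAbsValues.nonarchAbsVal (K := K), f v.val :=
      finsum_nonneg fun v => h0 v.val (Or.inr v.property)
    linarith
  · have h1 : 0 ≤ (AdmissibleAbsValues.archAbsVal.map f).sum := by
      refine Multiset.sum_nonneg fun a ha => ?_
      obtain ⟨v, hv', rfl⟩ := Multiset.mem_map.mp ha
      exact h0 v (Or.inl hv')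
    have h2 : f v₀ ≤ ∑ᶠ v : AdmissibleAbsValues.nonarchAbsVal (K := K), f v.val :=
      single_le_finsum (⟨v₀, hv⟩ : AdmissibleAbsValues.nonarchAbsVal (K := K))
        (f := fun v => f v.val) hf fun v => h0 v.val (Or.inr v.property)
    linarith

private theorem d11a_nonneg {L : Type*} [Field L] (v : AbsoluteValue L ℝ) (a : L) :
    0 ≤ - Real.log (min 1 (v a)) := by
  have h1 : 0 ≤ min 1 (v a) := le_min zero_le_one (v.nonneg _)
  have h2 := Real.log_nonpos h1 (min_le_left _ _)
  linarith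

theorem gjv_nonneg {L : Type*} [Field L] (v : AbsoluteValue L ℝ) {m : ℕ} {ι : Type*}
    (j : Fin m → ℕ) (s : Fin m → ι → L) (a : Fin m → L) : 0 ≤ gjv v j s a := by
  classical
  unfold gjv
  split_ifs
  · exact Real.iInf_nonneg fun i => div_nonneg (d11a_nonneg v (a i)) (by positivity)
  · exact le_rfl

theorem gjv_le {L : Type*} [Field L] (v : AbsoluteValue L ℝ) {m : ℕ} {ι : Type*}
    (j : Fin m → ℕ) (s : Fin m → ι → L) (a : Fin m → L) (i : Fin m) :
    4 ^ j i * gjv v j s a ≤ - Real.log (min 1 (v (a i))) := by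
  classical
  unfold gjv
  split_ifs
  · have h1 : (⨅ i, (- Real.log (min 1 (v (a i)))) / 4 ^ j i) ≤
        (- Real.log (min 1 (v (a i)))) / 4 ^ j i :=
      ciInf_le (Set.finite_range _).bddBelow i
    have h2 : (0 : ℝ) < 4 ^ j i := by positivity
    rw [le_div_iff₀ h2] at h1
    linarith
  · rw [mul_zero]
    exact d11a_nonneg v (a i)

/-- Lower bound for the local gain. -/
theorem le_gjv {L : Type*} [Field L] (v : AbsoluteValue L ℝ) {m : ℕ} (hm : 0 < m) {ι : Type*}
    (j : Fin m → ℕ) (s : Fin m → ι → L) (a : Fin m → L) (hs : ∀ i t, v (s i t) ≤ 1) {g : ℝ}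
    (hg : ∀ i, 4 ^ j i * g ≤ - Real.log (v (a i))) : g ≤ gjv v j s a := by
  classical
  unfold gjv
  rw [if_pos hs]
  have : Nonempty (Fin m) := ⟨⟨0, hm⟩⟩
  refine le_ciInf fun i => ?_
  have h2 : (0 : ℝ) < 4 ^ j i := by positivity
  rw [le_div_iff₀ h2]
  have h3 := hg i
  have h4 : - Real.log (v (a i)) ≤ - Real.log (min 1 (v (a i))) := by
    rcases le_total 1 (v (a i)) with h | h
    · rw [min_eq_left h, Real.log_one]
      have := Real.log_nonneg h
      linarith
    · rw [min_eq_right h]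
  linarith

theorem dlj_pos {L : Type*} [Field L] (v : AbsoluteValue L ℝ) {m : ℕ} {ι : Type*}
    (j : Fin m → ℕ) (s : Fin m → ι → L) (a : Fin m → L) :
    0 < dlj v j s a ∧ dlj v j s a ≤ 1 := by
  unfold dlj
  refine ⟨Real.exp_pos _, ?_⟩
  rw [Real.exp_le_one_iff]
  have := gjv_nonneg v j s a
  linarith

theorem dlj_cases {L : Type*} [Field L] (v : AbsoluteValue L ℝ) {m : ℕ} {ι : Type*}
    (j : Fin m → ℕ) (s : Fin m → ι → L) (a : Fin m → L) :
    dlj v j s a = 1 ∨ ∀ i, (∀ t, v (s i t) ≤ 1) ∧ v (a i) ≤ dlj v j s a ^ (4 ^ j i) := by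
  classical
  by_cases h0 : gjv v j s a = 0
  · left
    unfold dlj
    rw [h0, neg_zero, Real.exp_zero]
  · right
    have hpos : 0 < gjv v j s a := lt_of_le_of_ne (gjv_nonneg v j s a) (Ne.symm h0)
    have hs : ∀ i t, v (s i t) ≤ 1 := by
      by_contra hn
      apply h0
      unfold gjv
      rw [if_neg hn]
    intro i
    refine ⟨hs i, ?_⟩
    have h1 := gjv_le v j s a i
    have h2 : (0 : ℝ) < 4 ^ j i * gjv v j s a := mul_pos (by positivity) hpos
    have h3 : 0 ≤ min 1 (v (a i)) := le_min zero_le_one (v.nonneg _)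
    have h4 : Real.log (min 1 (v (a i))) < 0 := by linarith
    have h5 : 0 < min 1 (v (a i)) := by
      rcases h3.eq_or_lt with h | h
      · rw [← h, Real.log_zero] at h4
        exact absurd h4 (lt_irrefl _)
      · exact h
    have h6 : min 1 (v (a i)) < 1 := by
      by_contra hn
      push Not at hn
      have := Real.log_nonneg hn
      linarith
    have h7 : min 1 (v (a i)) = v (a i) := by
      rcases le_total 1 (v (a i)) with h | h
      · rw [min_eq_left h] at h6
        exact absurd h6 (lt_irrefl _)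
      · exact min_eq_right h
    rw [h7] at h1 h5
    calc v (a i) = Real.exp (Real.log (v (a i))) := (Real.exp_log h5).symm
      _ ≤ Real.exp (((4 ^ j i : ℕ) : ℝ) * (- gjv v j s a)) := by
          refine Real.exp_le_exp.2 ?_
          push_cast
          linarith
      _ = dlj v j s a ^ (4 ^ j i) := by
          rw [Real.exp_nat_mul]
          rfl

end Pool.Agent.Lib.MP_17a322_nt.VD
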