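import Pool.Agent.Lib.MP_17a322_nt.VD.Defs
import Pool.Agent.Lib.MP_17a322_nt.VN.BC
import Pool.Agent.Lib.MP_17a322_nt.VD.D11a

/-!
# JOB VD D11b: the joint gain

PROOFS. Every term `- log (min 1 (v (a i))) / 4 ^ j i` is `≥ 0` (also for `a i = 0`, where it is `0`). `gjv_nonneg`: `Real.iInf_nonneg`. `gjv_le`: `ciInf_le` (finite index). `dlj_cases`: if `gjv = 0` then `dlj = 1`. Otherwise `gjv > 0`, so all `v (s i t) ≤ 1` and for every `i`
`0 < 4 ^ j i * gjv ≤ - log (min 1 (v (a i)))`; so `a i ≠ 0`, `min 1 (v (a i)) ≤ exp (- 4 ^ j i * gjv) = dlj ^ (4 ^ j i) < 1`, hence `v (a i) = min 1 (v (a i))`.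
`FS_gjv`: if `m = 0` or some `a i = 0` then `gjv` is `0` at all places (the infimum is `≤` the term `0`). Otherwise take one `i` : at almost all places `v (a i) = 1`, the term is `0` (model `BC_FS_gn`, VN/BC: `FS_log_abv`).
`gs_log_dlj`: `log dlj = - gjv`, `gs_const_mul`. `gj_nonneg`, `gj_le`: `gs_nonneg`; `4 ^ j i * gjv ≤ - log (min 1 (v (a i))) ≤ log (max 1 (v (a i)⁻¹))`, `gs_le`, `gs_log_max`, `logHeight₁_inv` (model `gn_le_ht`). `gj_map`: model `gn_map`: `gs_bc` with
`gjv w .. = n * gjv v ..` if `w (algebraMap x) = v x ^ n` (`Real.mul_iInf_of_nonneg`). `gs_single`: for a nonnegative function with `FS` the value at one place is at most the sum: unfold `gs`, `FS`, `Pl` (VJ/Defs); a member of the multiset `archAbsVal` (`Multiset.single_le_sum`), or one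
term of the finite sum (`single_le_finsum`).
-/

namespace Pool.Agent.Lib.MP_17a322_nt.VD

open MvPolynomial Height
open Pool.Agent.Lib.MP_17a322_nt.RO
open Pool.Agent.Lib.MP_17a322_nt.VJ
open Pool.Agent.Lib.MP_17a322_nt.VN

private theorem D11b_term {L : Type*} [Field L] (v : AbsoluteValue L ℝ) (x : L) :
    0 ≤ - Real.log (min 1 (v x)) := by
  have h := Real.log_nonpos (le_min zero_le_one (v.nonneg x)) (min_le_left _ _)
  linarith

theorem FS_gjv {L : Type*} [Field L] [NumberField L] {m : ℕ} {ι : Type*} (j : Fin m → ℕ)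
    (s : Fin m → ι → L) (a : Fin m → L) : FS fun v : AbsoluteValue L ℝ => gjv v j s a := by
  classical
  have hzero : (∀ v : AbsoluteValue L ℝ, gjv v j s a = 0) →
      FS fun v : AbsoluteValue L ℝ => gjv v j s a := by
    intro h
    have : (fun v : AbsoluteValue L ℝ => gjv v j s a) = fun _ => 0 := funext h
    rw [this]
    unfold FS
    simp
  rcases isEmpty_or_nonempty (Fin m) with hm | hm
  · refine hzero fun v => ?_
    unfold gjv
    rw [Real.iInf_of_isEmpty, ite_self]
  · obtain ⟨i⟩ := hm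
    have hle : ∀ v : AbsoluteValue L ℝ, 4 ^ j i * gjv v j s a ≤ - Real.log (min 1 (v (a i))) :=
      fun v => gjv_le v j s a i
    have h4 : (0 : ℝ) < 4 ^ j i := by positivity
    by_cases ha : a i = 0
    · refine hzero fun v => le_antisymm ?_ (gjv_nonneg v j s a)
      have h1 := hle v
      rw [ha, map_zero, min_eq_right zero_le_one, Real.log_zero, neg_zero] at h1
      exact nonpos_of_mul_nonpos_right h1 h4
    · have h1 := FS_log_abv ha
      unfold FS at h1 ⊢
      refine h1.subset fun v hv => ?_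
      intro h2
      apply hv
      have h3 : v.val (a i) = 1 :=
        Real.eq_one_of_pos_of_log_eq_zero (v.val.pos ha) h2
      have h5 := hle v.val
      rw [h3, min_self, Real.log_one, neg_zero] at h5
      exact le_antisymm (nonpos_of_mul_nonpos_right h5 h4) (gjv_nonneg _ j s a)

theorem gs_log_dlj {L : Type*} [Field L] [NumberField L] {m : ℕ} {ι : Type*} (j : Fin m → ℕ)
    (s : Fin m → ι → L) (a : Fin m → L) :
    FS (fun v : AbsoluteValue L ℝ => Real.log (dlj v j s a)) ∧
      gs (fun v : AbsoluteValue L ℝ => Real.log (dlj v j s a)) = - gj j s a := by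
  have h : (fun v : AbsoluteValue L ℝ => Real.log (dlj v j s a)) =
      fun v => (-1 : ℝ) * gjv v j s a := by
    funext v
    unfold dlj
    rw [Real.log_exp]
    ring
  rw [h]
  refine ⟨FS_const_mul _ (FS_gjv j s a), ?_⟩
  rw [gs_const_mul]
  unfold gj
  ring

theorem gj_nonneg {L : Type*} [Field L] [NumberField L] {m : ℕ} {ι : Type*} (j : Fin m → ℕ)
    (s : Fin m → ι → L) (a : Fin m → L) : 0 ≤ gj j s a :=
  gs_nonneg fun v _ => gjv_nonneg v j s a

theorem gj_le {L : Type*} [Field L] [NumberField L] {m : ℕ} {ι : Type*} (j : Fin m → ℕ)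
    (s : Fin m → ι → L) (a : Fin m → L) (i : Fin m) (ha : a i ≠ 0) :
    4 ^ j i * gj j s a ≤ logHeight₁ (a i) := by
  rw [← logHeight₁_inv (a i), ← gs_log_max]
  unfold gj
  rw [← gs_const_mul]
  refine gs_le (FS_const_mul _ (FS_gjv j s a)) (FS_log_max (a i)⁻¹) fun v _ => ?_
  refine (gjv_le v j s a i).trans (le_of_eq ?_)
  rw [map_inv₀]
  rcases le_total 1 (v (a i)) with h | h
  · rw [min_eq_left h, max_eq_left (inv_le_one_of_one_le₀ h), Real.log_one, neg_zero]
  · rw [min_eq_right h, max_eq_right ((one_le_inv₀ (v.pos ha)).2 h), Real.log_inv]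

theorem gjv_le_gj {L : Type*} [Field L] [NumberField L] {m : ℕ} {ι : Type*} (j : Fin m → ℕ)
    (s : Fin m → ι → L) (a : Fin m → L) {v₀ : AbsoluteValue L ℝ} (hv : Pl v₀) :
    gjv v₀ j s a ≤ gj j s a :=
  gs_single (FS_gjv j s a) (fun v _ => gjv_nonneg v j s a) hv

private theorem D11b_min {x : ℝ} (hx : 0 ≤ x) (n : ℕ) :
    - Real.log (min 1 (x ^ n)) = n * (- Real.log (min 1 x)) := by
  have h : min 1 (x ^ n) = (min 1 x) ^ n := by
    rcases le_total 1 x with h | h
    · rw [min_eq_left h, min_eq_left (one_le_pow₀ h), one_pow]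
    · rw [min_eq_right h, min_eq_right (pow_le_one₀ hx h)]
  rw [h, Real.log_pow]
  ring

theorem gj_map {K L : Type*} [Field K] [NumberField K] [Field L] [NumberField L] [Algebra K L]
    {m : ℕ} {ι : Type*} (j : Fin m → ℕ) (s : Fin m → ι → K) (a : Fin m → K) :
    gj j (fun i t => algebraMap K L (s i t)) (fun i => algebraMap K L (a i)) =
      Module.finrank K L * gj j s a := by
  classical
  refine (gs_bc _ _ (FS_gjv j s a) (fun ψ => ?_) (fun v w n hn0 hvw => ?_)).2
  · unfold gjv
    simp only [A7_apply]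
  · unfold gjv
    simp only [hvw]
    have h1 : (∀ i t, v (s i t) ^ n ≤ 1) ↔ ∀ i t, v (s i t) ≤ 1 :=
      forall_congr' fun i => forall_congr' fun t =>
        pow_le_one_iff_of_nonneg (v.nonneg _) hn0.ne'
    by_cases h5 : ∀ i t, v (s i t) ≤ 1
    · rw [if_pos h5, if_pos (h1.2 h5), Real.mul_iInf_of_nonneg (Nat.cast_nonneg n)]
      congr 1
      funext i
      rw [D11b_min (v.nonneg _)]
      ring
    · rw [if_neg h5, if_neg (fun h6 => h5 (h1.1 h6)), mul_zero]

end Pool.Agent.Lib.MP_17a322_nt.VD
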