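import Pool.Agent.Lib.MP_17a322_nt.VD.Defs
import Pool.Agent.Lib.MP_17a322_nt.VDL.LG

/-!
# VD D16: theorem S1D

The proof is in `VDL/LG`.
-/

universe u

namespace Pool.Agent.Lib.MP_17a322_nt.VD

open MvPolynomial Height
open Pool.Agent.Lib.MP_17a322_nt.RO
open Pool.Agent.Lib.MP_17a322_nt.VJ
open Pool.Agent.Lib.MP_17a322_nt.VN

theorem D16_gj {L : Type*} [Field L] [AdmissibleAbsValues L] {m n : ℕ} (j : Fin m → ℕ)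
    (s : Fin m → Fin n → L) (a : Fin m → L) : VDL.gj j s a = gj j s a := by
  unfold VDL.gj gj
  congr 1
  funext v
  unfold VDL.gjv gjv
  by_cases h : ∀ i t, v (s i t) ≤ 1
  · rw [if_pos h, if_pos h]
  · rw [if_neg h, if_neg h]

/-- The numerical theorem with the joint gain. -/
theorem S1D {K : Type u} [Field K] [NumberField K] [DecidableEq K] {k : ℕ}
    (W : Fin (k + 1) → WeierstrassCurve K) [∀ t, (W t).IsElliptic] (χ : Fin (k + 1) → Bool)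
    (e D : ℕ) (ε : ℝ) (hε : 0 < ε) :
    ∃ (m D' R₀ : ℕ) (C₀ η : ℝ), 0 < m ∧ 0 ≤ C₀ ∧ 0 < η ∧
      ∀ (P₀ : ∀ t, (W t).toAffine.Point) (P : Fin m → ∀ t, (W t).toAffine.Point) (j : Fin m → ℕ)
        (s y : Fin m → Fin (k + 1) → K) (ρ : Fin m → REP K (k + 1) e),
      (∀ i, R₀ ≤ 4 ^ j i) → (∀ i i', i < i' → R₀ * 4 ^ j i ≤ 4 ^ j i') →
      (∀ i t, P i t ≠ 0) → (∀ i t, CH (χ t) (P i t) (s i t)) →
      (∀ i t, y i t ^ 2 = ph (W t) (vc (χ t) (s i t))) → (∀ i t, y i t ≠ 0) →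
      (∀ i, (ρ i).Deg D) → (∀ i, (ρ i).ht ≤ 4 ^ j i) →
      (∀ i, eval (s i) ((ρ i).z 0) ≠ 0) →
      ε * HN P₀ ≤ gj j s (fun i => eval (s i) ((ρ i).z 0)) →
      (∀ t, P₀ t ≠ 0) → C₀ ≤ HN P₀ →
      (∀ i t, logHeight (P i t - 2 ^ j i • P₀ t).xRep ≤ η * (4 ^ j i * HN P₀)) →
      (∀ i, |HN (P i) - 4 ^ j i * HN P₀| ≤ η * (4 ^ j i * HN P₀)) →
      ∃ (i : Fin m) (G : MvPolynomial (Fin (k + 1)) K), G ≠ 0 ∧ (∀ t, G.degreeOf t ≤ D') ∧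
        nh G ≤ C₀ * 4 ^ j i ∧ eval (s i) G = 0 := by
  obtain ⟨m, D', R₀, C₀, η, hm, hC, hη, h⟩ := VDL.S1D W χ e D ε hε
  refine ⟨m, D', R₀, C₀, η, hm, hC, hη, ?_⟩
  intro P₀ P j s y ρ h1 h2 h3 h4 h5 h6 h7 h8 h9 h10
  rw [← D16_gj] at h10
  exact h P₀ P j s y ρ h1 h2 h3 h4 h5 h6 h7 h8 h9 h10

end Pool.Agent.Lib.MP_17a322_nt.VD
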