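import Pool.Agent.Lib.MP_17a322_nt.VN.C13
import Pool.Agent.Lib.MP_17a322_nt.VN.C14
import Pool.Agent.Lib.MP_17a322_nt.VN.C15

/-!
# JOB VD D17: a centre datum for a hypersurface

PROOF. `exists_aut f hf` (C14): an automorphism `τ` with `IsUnit (finSuccEquiv k n (τ f)).leadingCoeff`. `τ f` is not a unit. `finite_cons (τ f)` (C15) with `z = X` (`finite_X n`, C13): `aeval (Fin.cons (τ f) fun t => rename Fin.succ (X t))` is finite. `finite_equiv τ.symm` (C13) and `exists_REP_of_finite`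
(C13): `ρ.z 0 = τ.symm (τ f) = f`. (Compare the proof of `REPEX` in C17.)
-/

namespace Pool.Agent.Lib.MP_17a322_nt.VD

open MvPolynomial
open Pool.Agent.Lib.MP_17a322_nt.VN

theorem REPEX1 {k : Type*} [Field k] {n : ℕ} (f : MvPolynomial (Fin (n + 1)) k) (hf : f ≠ 0)
    (hu : ¬ IsUnit f) : ∃ (e : ℕ) (ρ : REP k (n + 1) e), ρ.z 0 = f := by
  obtain ⟨τ, hτ⟩ := exists_aut f hf
  have hfu' : ¬ IsUnit (τ f) := fun h => hu ((MulEquiv.isUnit_map τ).mp h)
  have h1 := finite_cons (τ f) hτ hfu' (fun t => X t) (finite_X n)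
  have h2 := finite_equiv τ.symm _ h1
  obtain ⟨e, ρ, hρ⟩ := exists_REP_of_finite _ h2
  refine ⟨e, ρ, ?_⟩
  rw [hρ]
  show τ.symm (τ f) = f
  exact τ.symm_apply_apply f

end Pool.Agent.Lib.MP_17a322_nt.VD
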