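import Pool.Agent.Lib.MP_17a322_nt.VD.D11
import Pool.Agent.Lib.MP_17a322_nt.VD.D16
import Pool.Agent.Lib.MP_17a322_nt.VD.D17
import Pool.Agent.Lib.MP_17a322_nt.VN.F4
import Pool.Agent.Lib.MP_17a322_nt.VN.F5
import Pool.Agent.Lib.MP_17a322_nt.VN.F6c

/-!
# JOB VD D18: no proximity over `k0` in independent coordinates

PROOF of `DSTAR`. Model: `GCDSTAR` (VN/F6). By contradiction, so (`not_eventually_iff`) for almost all `i`: `ε * HN (P i) ≤ - log (v₀ (a i))`. `gm a ≠ 0` (`hJ`, `algebraicIndependent_iff`), so `a i ≠ 0` for almost all `i`.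
Case `IsUnit f`: `f = C c` (`MvPolynomial.isUnit_iff_eq_C_of_isReduced`/`isUnit_iff_coeff` of F6b), so `gm a = algebraMap _ _ c ∈ k0` and `oH (..) fun i => logHeight₁ (a i)` (`mem_k0`); `- log (v₀ (a i)) ≤ log (max 1 (v₀ (a i)⁻¹)) ≤ logHeight₁ (a i)⁻¹ = logHeight₁ (a i)` (`gs_single` of D11, `FS_log_max`,
`gs_log_max`, `logHeight₁_inv`); with `δ = ε / 2` and `HN (P i) > 0` for almost all `i` (`hH.eventually_gt_atTop 0`) a contradiction.
Case not a unit: `REPEX1` (D17) over `k0`, `REP_transfer` (F3): `e`, `D`, `h`. For almost all `i` there is `ρ'` with `ρ'.z 0 = pr f i`, and `eval (fun t => s i (J t)) (pr f i) = a i` (`gm_eval_pr`, `gm_eq_iff`). `S1D (fun t => W (J t)) (fun t => χ (J t)) e D (ε / 2)`, `SI` (F5), `HJ_ge`, `y_ne_zero`, `FRAME` exactly as in `GCDSTAR`,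
with the condition `S i`: `(∃ ρ, ρ.Deg D ∧ ρ.ht ≤ h i ∧ eval (fun t => s i (J t)) (ρ.z 0) = a i) ∧ a i ≠ 0 ∧ ε * HN (P i) ≤ - log (v₀ (a i)) ∧ (∀ t, v₀ (s i t) ≤ 1) ∧ (∀ t, y i (J t) ≠ 0) ∧ (SI ..)`. The gain: `le_gjv` (D11) with `g = ε / 2 * HN_J (P a₀)`: `4 ^ j i * g ≤ ε / 2 * (2 * HN_J (P (b₀ i))) ≤ ε * HN (P (b₀ i)) ≤ - log (v₀ (a (b₀ i)))`
(FRAME gives `4 ^ j i * HN_J (P a₀) ≤ 2 * HN_J (P (b₀ i))`, `HN_le_of_embedding`), then `gjv_le_gj`.
-/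

universe u

namespace Pool.Agent.Lib.MP_17a322_nt.VD

open MvPolynomial Height Filter
open Pool.Agent.Lib.MP_17a322_nt.RO
open Pool.Agent.Lib.MP_17a322_nt.VJ
open Pool.Agent.Lib.MP_17a322_nt.VN

/-- `- log |a|_v` is at most the height. -/
theorem neg_log_le {K : Type*} [Field K] [NumberField K] {v₀ : AbsoluteValue K ℝ} (hv : Pl v₀)
    (a : K) (ha : a ≠ 0) : - Real.log (v₀ a) ≤ logHeight₁ a := by
  have h1 : - Real.log (v₀ a) = Real.log (v₀ a⁻¹) := by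
    rw [map_inv₀, Real.log_inv]
  have h2 : Real.log (v₀ a⁻¹) ≤ Real.log (max 1 (v₀ a⁻¹)) :=
    Real.log_le_log (v₀.pos (inv_ne_zero ha)) (le_max_right _ _)
  have h3 := gs_single (FS_log_max a⁻¹)
    (fun v _ => Real.log_nonneg (le_max_left (1 : ℝ) (v a⁻¹))) hv
  rw [gs_log_max, logHeight₁_inv] at h3
  rw [h1]
  exact h2.trans h3

theorem DSTAR {K : Type u} [Field K] [NumberField K] [DecidableEq K] {n : ℕ}
    (W : Fin n → WeierstrassCurve K) [∀ t, (W t).IsElliptic] (χ : Fin n → Bool)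
    (P : ℕ → ∀ t, (W t).toAffine.Point) (s y : ℕ → Fin n → K)
    (hH : Tendsto (fun i => HN (P i)) (hyperfilter ℕ : Filter ℕ) atTop)
    (hP : ∀ i t, P i t ≠ 0) (hs : ∀ i t, CH (χ t) (P i t) (s i t))
    (hy : ∀ i t, y i t ^ 2 = ph (W t) (vc (χ t) (s i t)))
    (v₀ : AbsoluteValue K ℝ) (hv : Pl v₀)
    (hle : ∀ᶠ i in (hyperfilter ℕ : Filter ℕ), ∀ t, v₀ (s i t) ≤ 1) {k : ℕ}
    (J : Fin (k + 1) ↪ Fin n)
    (hJ : AlgebraicIndependent (k0 K _ hH) fun t => gm fun i => s i (J t))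
    (f : MvPolynomial (Fin (k + 1)) (k0 K _ hH)) (hf : f ≠ 0) (a : ℕ → K)
    (ha : gm a = aeval (fun t => gm fun i => s i (J t)) f) (ε : ℝ) (hε : 0 < ε) :
    ∀ᶠ i in (hyperfilter ℕ : Filter ℕ), - Real.log (v₀ (a i)) ≤ ε * HN (P i) := by
  classical
  by_contra hcon
  rw [not_eventually_iff] at hcon
  have hgain : ∀ᶠ i in (hyperfilter ℕ : Filter ℕ), ε * HN (P i) ≤ - Real.log (v₀ (a i)) :=
    hcon.mono fun i hi => (not_le.mp hi).le
  have hga : gm a ≠ 0 := by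
    intro h
    rw [ha] at h
    exact hf ((algebraicIndependent_iff.mp hJ) f h)
  have hane : ∀ᶠ i in (hyperfilter ℕ : Filter ℕ), a i ≠ 0 := gm_ne_zero_iff.mp hga
  by_cases hu : IsUnit f
  · have hC : f = C (coeff 0 f) := by
      have h1 := (isUnit_iff_coeff hf).mp hu
      refine MvPolynomial.ext _ _ fun m => ?_
      rw [coeff_C]
      split_ifs with hm
      · rw [hm]
      · exact h1 m (Ne.symm hm)
    have hmem : gm a ∈ k0 K _ hH := by
      rw [ha, hC, aeval_C]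
      exact (coeff 0 f).2
    rw [mem_k0] at hmem
    obtain ⟨i, ⟨⟨h1, h2⟩, h3⟩, h4⟩ := (((hgain.and hane).and (hmem (ε / 2) (by positivity))).and
      (hH.eventually_gt_atTop 0)).exists
    have h5 := neg_log_le hv (a i) h2
    have h6 : 0 < ε * HN (P i) := mul_pos hε h4
    have h7 : logHeight₁ (a i) ≤ ε / 2 * HN (P i) := h3
    have h8 : ε / 2 * HN (P i) = ε * HN (P i) / 2 := by ring
    linarith
  obtain ⟨e, ρ₀, hρ₀⟩ := REPEX1 f hf hu
  obtain ⟨D, h, hh, hρ'⟩ := REP_transfer ρ₀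
  have hev : ∀ᶠ i in (hyperfilter ℕ : Filter ℕ),
      eval (fun t => s i (J t)) (pr f i) = a i := by
    rw [← gm_eq_iff, gm_eval_pr f fun i t => s i (J t), ha]
  have hC : ∀ᶠ i in (hyperfilter ℕ : Filter ℕ), ∃ ρ : REP K (k + 1) e, ρ.Deg D ∧ ρ.ht ≤ h i ∧
      eval (fun t => s i (J t)) (ρ.z 0) = a i := by
    filter_upwards [hρ', hev] with i h1 h2
    obtain ⟨ρ', g1, g2, g3⟩ := h1
    refine ⟨ρ', g2, g3, ?_⟩
    rw [g1, hρ₀]
    exact h2
  obtain ⟨m, D', R₀, C₀, η, hm, hC₀, hη, hS1⟩ :=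
    S1D (fun t => W (J t)) (fun t => χ (J t)) e D (ε / 2) (by positivity)
  obtain ⟨δ, hδ, hSI⟩ := SI (fun i t => s i (J t)) (fun t => t) Function.injective_id hJ D'
  obtain ⟨c, hc, hHJ⟩ := HJ_ge W χ P s hH hs J 0 (indep_notMem _ hJ 0)
  have hHJt : Tendsto (fun i => HN (W := fun t => W (J t)) (fun t => P i (J t)))
      (hyperfilter ℕ : Filter ℕ) atTop :=
    tendsto_atTop_mono' _ hHJ (hH.const_mul_atTop hc)
  have hhJ : oH (fun i => HN (W := fun t => W (J t)) (fun t => P i (J t))) h := by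
    intro δ' hδ'
    filter_upwards [hh (δ' * c) (by positivity), hHJ] with i h1 h2
    calc h i ≤ δ' * c * HN (P i) := h1
      _ = δ' * (c * HN (P i)) := by ring
      _ ≤ _ := mul_le_mul_of_nonneg_left h2 hδ'.le
  have hy0 : ∀ᶠ i in (hyperfilter ℕ : Filter ℕ), ∀ t, y i (J t) ≠ 0 := by
    rw [eventually_all]
    exact fun t => y_ne_zero W χ P s y hH hy (J t) (hJ.transcendental t)
  obtain ⟨a₀, b₀, j, -, hSb, hCa, hpos, hR1, hR2, hhj, h4j, hpt, hcone⟩ :=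
    FRAME (fun t => W (J t)) (fun i t => P i (J t)) hHJt h hhJ
      (fun i => (∃ ρ : REP K (k + 1) e, ρ.Deg D ∧ ρ.ht ≤ h i ∧
        eval (fun t => s i (J t)) (ρ.z 0) = a i) ∧ (a i ≠ 0 ∧
        ε * HN (P i) ≤ - Real.log (v₀ (a i)) ∧ ∀ t, v₀ (s i t) ≤ 1) ∧ (∀ t, y i (J t) ≠ 0) ∧
        ∀ G : MvPolynomial (Fin (k + 1)) K, G ≠ 0 →
          (∀ t, t ∉ Set.range (fun t : Fin (k + 1) => t) → G.degreeOf t = 0) →
          (∀ t, G.degreeOf t ≤ D') → nh G ≤ δ * HN (P i) → eval (fun t => s i (J t)) G ≠ 0)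
      (hC.and ((hane.and (hgain.and hle)).and (hy0.and hSI))) m R₀ (max C₀ (2 * C₀ / δ)) η hη
  choose ρ hρD hρh hρz using fun i => (hSb i).1
  have hJle : ∀ i, HN (W := fun t => W (J t)) (fun t => P i (J t)) ≤ HN (P i) :=
    fun i => HN_le_of_embedding (P i) J
  have hg : ε / 2 * HN (W := fun t => W (J t)) (fun t => P a₀ (J t)) ≤
      gj j (fun i t => s (b₀ i) (J t)) (fun i => eval (fun t => s (b₀ i) (J t)) ((ρ i).z 0)) := by
    refine le_trans ?_ (gjv_le_gj j (fun i t => s (b₀ i) (J t))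
      (fun i => eval (fun t => s (b₀ i) (J t)) ((ρ i).z 0)) hv)
    refine le_gjv v₀ hm j _ _ (fun i t => (hSb i).2.1.2.2 (J t)) fun i => ?_
    rw [hρz i]
    have h1 : (4 : ℝ) ^ j i * HN (W := fun t => W (J t)) (fun t => P a₀ (J t)) ≤
        2 * HN (P (b₀ i)) :=
      (h4j i).trans (mul_le_mul_of_nonneg_left (hJle (b₀ i)) (by norm_num))
    have h2 := (hSb i).2.1.2.1
    have h3 := mul_le_mul_of_nonneg_left h1 (show (0 : ℝ) ≤ ε / 2 by positivity)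
    calc (4 : ℝ) ^ j i * (ε / 2 * HN (W := fun t => W (J t)) (fun t => P a₀ (J t)))
        = ε / 2 * (4 ^ j i * HN (W := fun t => W (J t)) (fun t => P a₀ (J t))) := by ring
      _ ≤ ε / 2 * (2 * HN (P (b₀ i))) := h3
      _ = ε * HN (P (b₀ i)) := by ring
      _ ≤ _ := h2
  obtain ⟨i, G, hG0, hGd, hGn, hGe⟩ := hS1 (fun t => P a₀ (J t)) (fun i t => P (b₀ i) (J t)) j
    (fun i t => s (b₀ i) (J t)) (fun i t => y (b₀ i) (J t)) ρ hR1 hR2
    (fun i t => hP _ _) (fun i t => hs _ _) (fun i t => hy _ _) (fun i t => (hSb i).2.2.1 t)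
    hρD (fun i => (hρh i).trans (hhj i)) (fun i => by rw [hρz i]; exact (hSb i).2.1.1)
    hg (fun t => hP _ _) ((le_max_left _ _).trans hCa) hpt hcone
  refine (hSb i).2.2.2 G hG0 (fun t ht => absurd ⟨t, rfl⟩ ht) hGd ?_ hGe
  refine hGn.trans ?_
  have h1 : 2 * C₀ / δ ≤ HN (W := fun t => W (J t)) (fun t => P a₀ (J t)) :=
    (le_max_right _ _).trans hCa
  rw [div_le_iff₀ hδ] at h1
  have h2 : (4 : ℝ) ^ j i * HN (W := fun t => W (J t)) (fun t => P a₀ (J t)) ≤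
      2 * HN (P (b₀ i)) := (h4j i).trans (mul_le_mul_of_nonneg_left (hJle (b₀ i)) (by norm_num))
  have h3 : (0 : ℝ) < 4 ^ j i := by positivity
  have h4 := mul_le_mul_of_nonneg_left h1 h3.le
  have h5 := mul_le_mul_of_nonneg_left h2 hδ.le
  nlinarith

end Pool.Agent.Lib.MP_17a322_nt.VD
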