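import Pool.Agent.Lib.MP_17a322_nt.VD.Defs
import Pool.Agent.Lib.MP_17a322_nt.VN.Z10

/-!
# JOB VD D21b: the proximity inequality

`tm f e x v = ∑ i, e i * log (max 1 |x i|_v) - log |f x|_v`.

PROOFS. `tm_chart`: `χ t = true ↔ 1 < v (x t)`. `aeval_chp_mul` (Z1; `aeval` with `L = K` is `eval`): `eval (fun t => sc (χ t) (x t)) (chp χ e f) * ∏ i, (if χ i then x i ^ e i else 1) = eval x f`. Apply `v` and `log`: `log (v (∏ ..)) = ∑ i, e i * log (max 1 (v (x i)))` (`v (x i) > 1`: `max = v (x i)`; otherwise `max = 1`), all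
factors are nonzero. `sc_le_one`: `v (sc true x) = (v x)⁻¹ ≤ 1` if `1 < v x`.
`height_eval`: `log (max 1 (v (eval x f))) ≤ log (max 1 (NV v f)) + ∑ i, degreeOf i f * log (max 1 (v (x i)))` (`SN.aeval_le'` (VJ/A3) for the seminorm `v` (`SN_self`), compare `F6_eval`, `L1t_ht`), sum over the places: `C = nh1 f`.
`PROX_le`: the sum of the terms over all infinite places (with multiplicity) and the places of `S` is at most `∑ e i * logHeight₁ (x i) + logHeight₁ (eval x f)`: every term is `≤ ∑ i, e i * log (max 1 (v (x i))) + log (max 1 (v (eval x f)⁻¹))`, which is nonnegative at all places, so the sum is `≤ gs` of it (all places):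
`gs` is the sum over the infinite places with multiplicity (`Multiset` `archAbsVal`: for `NumberField` see `Height.NumberField...`/how VJ/A4 or A7 (`A7_arch`, `BC_gs`) write it: `BC_gs` gives `gs φ = ∑ v : InfinitePlace, mult * φ v.val + ∑ᶠ ..`) plus the sum over the finite places; `BC_gs`, `BC_FS`.
-/

universe u

namespace Pool.Agent.Lib.MP_17a322_nt.VD

open MvPolynomial Height Filter
open Pool.Agent.Lib.MP_17a322_nt.RO
open Pool.Agent.Lib.MP_17a322_nt.VJ
open Pool.Agent.Lib.MP_17a322_nt.VN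

theorem height_eval {K : Type*} [Field K] [NumberField K] {n : ℕ}
    (f : MvPolynomial (Fin n) K) :
    ∃ C : ℝ, 0 ≤ C ∧ ∀ x : Fin n → K,
      logHeight₁ (eval x f) ≤ ∑ i, (f.degreeOf i : ℝ) * logHeight₁ (x i) + C := by
  refine ⟨nh1 f, nh1_nonneg f, fun x => ?_⟩
  have hFS : FS (fun v : AbsoluteValue K ℝ =>
      ∑ t, (f.degreeOf t : ℝ) * Real.log (max 1 (v (x t)))) :=
    FS_sum _ fun t _ => FS_const_mul _ (FS_log_max (x t))
  have h1 : ∑ i, (f.degreeOf i : ℝ) * logHeight₁ (x i) + nh1 f =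
      gs (fun v : AbsoluteValue K ℝ =>
        (∑ t, (f.degreeOf t : ℝ) * Real.log (max 1 (v (x t)))) + Real.log (max 1 (NV v f))) := by
    rw [gs_add hFS (FS_nh1 f), gs_sum _ fun t _ => FS_const_mul _ (FS_log_max (x t))]
    simp only [gs_const_mul, gs_log_max]
    rfl
  rw [h1, ← gs_log_max]
  refine gs_le (FS_log_max _) (FS_add hFS (FS_nh1 f)) fun v _ => ?_
  have h2 : v (eval x f) ≤ NV v f * ∏ t, max 1 (v (x t)) ^ (f.degreeOf t) :=
    (SN_self v).aeval_le f (fun t => f.degreeOf t) (fun _ => le_rfl) x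
  have hP : 1 ≤ ∏ t, max 1 (v (x t)) ^ (f.degreeOf t) := by
    refine le_of_eq_of_le (Finset.prod_const_one (s := (Finset.univ : Finset (Fin n)))).symm ?_
    exact Finset.prod_le_prod (fun _ _ => zero_le_one) fun t _ =>
      one_le_pow₀ (le_max_left _ _)
  have hR : 1 ≤ max 1 (NV v f) := le_max_left _ _
  have h3 : max 1 (v (eval x f)) ≤
      (∏ t, max 1 (v (x t)) ^ (f.degreeOf t)) * max 1 (NV v f) := by
    refine max_le (one_le_mul_of_one_le_of_one_le hP hR) (h2.trans ?_)
    rw [mul_comm]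
    exact mul_le_mul_of_nonneg_left (le_max_right _ _) (zero_le_one.trans hP)
  have h4 := Real.log_le_log (lt_max_of_lt_left one_pos) h3
  refine h4.trans (le_of_eq ?_)
  rw [Real.log_mul (zero_lt_one.trans_le hP).ne' (zero_lt_one.trans_le hR).ne',
    Real.log_prod fun t _ => (pow_pos (lt_max_of_lt_left one_pos) _).ne']
  congr 1
  refine Finset.sum_congr rfl fun t _ => ?_
  rw [Real.log_pow]

end Pool.Agent.Lib.MP_17a322_nt.VD
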