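import Pool.Agent.Lib.MP_17a322_nt.VD.Defs
import Pool.Agent.Lib.MP_17a322_nt.VN.Z10

/-!
# JOB VD D21c: the proximity inequality

`tm f e x v = ∑ i, e i * log (max 1 |x i|_v) - log |f x|_v`.

PROOFS. `tm_chart`: `χ t = true ↔ 1 < v (x t)`. `aeval_chp_mul` (Z1; `aeval` with `L = K` is `eval`): `eval (fun t => sc (χ t) (x t)) (chp χ e f) * ∏ i, (if χ i then x i ^ e i else 1) = eval x f`. Apply `v` and `log`: `log (v (∏ ..)) = ∑ i, e i * log (max 1 (v (x i)))` (`v (x i) > 1`: `max = v (x i)`; otherwise `max = 1`), all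
factors are nonzero. `sc_le_one`: `v (sc true x) = (v x)⁻¹ ≤ 1` if `1 < v x`.
`height_eval`: `log (max 1 (v (eval x f))) ≤ log (max 1 (NV v f)) + ∑ i, degreeOf i f * log (max 1 (v (x i)))` (`SN.aeval_le'` (VJ/A3) for the seminorm `v` (`SN_self`), compare `F6_eval`, `L1t_ht`), sum over the places: `C = nh1 f`.
`PROX_le`: the sum of the terms over all infinite places (with multiplicity) and the places of `S` is at most `∑ e i * logHeight₁ (x i) + logHeight₁ (eval x f)`: every term is `≤ ∑ i, e i * log (max 1 (v (x i))) + log (max 1 (v (eval x f)⁻¹))`, which is nonnegative at all places, so the sum is `≤ gs` of it (all places):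
`gs` is the sum over the infinite places with multiplicity (`Multiset` `archAbsVal`: for `NumberField` see `Height.NumberField...`/how VJ/A4 or A7 (`A7_arch`, `BC_gs`) write it: `BC_gs` gives `gs φ = ∑ v : InfinitePlace, mult * φ v.val + ∑ᶠ ..`) plus the sum over the finite places; `BC_gs`, `BC_FS`.
-/

universe u

namespace Pool.Agent.Lib.MP_17a322_nt.VD

open MvPolynomial Height Filter
open Pool.Agent.Lib.MP_17a322_nt.RO
open Pool.Agent.Lib.MP_17a322_nt.VJ
open Pool.Agent.Lib.MP_17a322_nt.VN

theorem Pl_infinite {K : Type*} [Field K] [NumberField K] (v : NumberField.InfinitePlace K) :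
    Pl v.val := by
  exact Or.inl (NumberField.mem_multisetInfinitePlace.2 v.isInfinitePlace)

theorem Pl_finite {K : Type*} [Field K] [NumberField K] (v : NumberField.FinitePlace K) :
    Pl v.val := by
  exact Or.inr v.isFinitePlace

theorem PROX_le {K : Type*} [Field K] [NumberField K] {n : ℕ} (f : MvPolynomial (Fin n) K)
    (e : Fin n → ℕ) (S : Finset (NumberField.FinitePlace K)) (x : Fin n → K)
    (hf : eval x f ≠ 0) :
    (∑ v : NumberField.InfinitePlace K, (v.mult : ℝ) * tm f e x v) + ∑ v ∈ S, tm f e x v ≤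
      ∑ i, (e i : ℝ) * logHeight₁ (x i) + logHeight₁ (eval x f) := by
  classical
  let φ : AbsoluteValue K ℝ → ℝ := fun v =>
    (∑ i, (e i : ℝ) * Real.log (max 1 (v (x i)))) + Real.log (max 1 (v (eval x f)⁻¹))
  have hφ1 : FS fun v : AbsoluteValue K ℝ => ∑ i, (e i : ℝ) * Real.log (max 1 (v (x i))) :=
    FS_sum Finset.univ fun i _ => FS_const_mul _ (FS_log_max (x i))
  have hφ : FS φ := FS_add hφ1 (FS_log_max _)
  have hgs : gs φ = ∑ i, (e i : ℝ) * logHeight₁ (x i) + logHeight₁ (eval x f) := by
    change gs (fun v : AbsoluteValue K ℝ =>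
      (∑ i, (e i : ℝ) * Real.log (max 1 (v (x i)))) + Real.log (max 1 (v (eval x f)⁻¹))) = _
    rw [gs_add hφ1 (FS_log_max _), gs_sum Finset.univ fun i _ => FS_const_mul _ (FS_log_max (x i)),
      gs_log_max, logHeight₁_inv]
    congr 1
    refine Finset.sum_congr rfl fun i _ => ?_
    rw [gs_const_mul, gs_log_max]
  have hnn : ∀ v : AbsoluteValue K ℝ, 0 ≤ φ v := by
    intro v
    refine add_nonneg (Finset.sum_nonneg fun i _ => mul_nonneg (Nat.cast_nonneg _) ?_) ?_
    · exact Real.log_nonneg (le_max_left _ _)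
    · exact Real.log_nonneg (le_max_left _ _)
  have hle : ∀ v : AbsoluteValue K ℝ, tm f e x v ≤ φ v := by
    intro v
    have h1 : 0 < v (eval x f) := v.pos hf
    have h2 : - Real.log (v (eval x f)) ≤ Real.log (max 1 (v (eval x f)⁻¹)) := by
      rw [← Real.log_inv, map_inv₀]
      exact Real.log_le_log (inv_pos.2 h1) (le_max_right _ _)
    change (∑ i, (e i : ℝ) * Real.log (max 1 (v (x i)))) - Real.log (v (eval x f)) ≤
      (∑ i, (e i : ℝ) * Real.log (max 1 (v (x i)))) + Real.log (max 1 (v (eval x f)⁻¹))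
    linarith
  rw [← hgs]
  unfold gs
  refine add_le_add ?_ ?_
  · rw [NumberField.sum_archAbsVal_eq]
    refine Finset.sum_le_sum fun v _ => ?_
    rw [nsmul_eq_mul]
    exact mul_le_mul_of_nonneg_left (hle v.val) (Nat.cast_nonneg _)
  · rw [NumberField.sum_nonarchAbsVal_eq]
    have hfin : (Function.support fun v : NumberField.FinitePlace K => φ v.val).Finite := hφ
    rw [finsum_eq_sum_of_support_subset (fun v : NumberField.FinitePlace K => φ v.val)
      (s := hfin.toFinset ∪ S) (by
        intro v hv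
        rw [Finset.mem_coe, Finset.mem_union, Set.Finite.mem_toFinset]
        exact Or.inl hv)]
    calc ∑ v ∈ S, tm f e x v ≤ ∑ v ∈ S, φ v.val := Finset.sum_le_sum fun v _ => hle v.val
      _ ≤ ∑ v ∈ hfin.toFinset ∪ S, φ v.val :=
        Finset.sum_le_sum_of_subset_of_nonneg Finset.subset_union_right fun v _ _ => hnn v.val

end Pool.Agent.Lib.MP_17a322_nt.VD
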