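import Pool.Agent.Lib.MP_17a322_nt.VD.D21a
import Pool.Agent.Lib.MP_17a322_nt.VD.D21b
import Pool.Agent.Lib.MP_17a322_nt.VD.D21c

/-!
# VD D21
-/
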