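import Pool.Agent.Lib.MP_17a322_nt.VD.Defs
import Pool.Agent.Lib.MP_17a322_nt.VN.Z10

/-!
# JOB VD D21a: the proximity inequality

`tm f e x v = ∑ i, e i * log (max 1 |x i|_v) - log |f x|_v`.

PROOFS. `tm_chart`: `χ t = true ↔ 1 < v (x t)`. `aeval_chp_mul` (Z1; `aeval` with `L = K` is `eval`): `eval (fun t => sc (χ t) (x t)) (chp χ e f) * ∏ i, (if χ i then x i ^ e i else 1) = eval x f`. Apply `v` and `log`: `log (v (∏ ..)) = ∑ i, e i * log (max 1 (v (x i)))` (`v (x i) > 1`: `max = v (x i)`; otherwise `max = 1`), all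
factors are nonzero. `sc_le_one`: `v (sc true x) = (v x)⁻¹ ≤ 1` if `1 < v x`.
`height_eval`: `log (max 1 (v (eval x f))) ≤ log (max 1 (NV v f)) + ∑ i, degreeOf i f * log (max 1 (v (x i)))` (`SN.aeval_le'` (VJ/A3) for the seminorm `v` (`SN_self`), compare `F6_eval`, `L1t_ht`), sum over the places: `C = nh1 f`.
`PROX_le`: the sum of the terms over all infinite places (with multiplicity) and the places of `S` is at most `∑ e i * logHeight₁ (x i) + logHeight₁ (eval x f)`: every term is `≤ ∑ i, e i * log (max 1 (v (x i))) + log (max 1 (v (eval x f)⁻¹))`, which is nonnegative at all places, so the sum is `≤ gs` of it (all places):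
`gs` is the sum over the infinite places with multiplicity (`Multiset` `archAbsVal`: for `NumberField` see `Height.NumberField...`/how VJ/A4 or A7 (`A7_arch`, `BC_gs`) write it: `BC_gs` gives `gs φ = ∑ v : InfinitePlace, mult * φ v.val + ∑ᶠ ..`) plus the sum over the finite places; `BC_gs`, `BC_FS`.
-/

universe u

namespace Pool.Agent.Lib.MP_17a322_nt.VD

open MvPolynomial Height Filter
open Pool.Agent.Lib.MP_17a322_nt.RO
open Pool.Agent.Lib.MP_17a322_nt.VJ
open Pool.Agent.Lib.MP_17a322_nt.VN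

theorem sc_le_one {K : Type*} [Field K] (v : AbsoluteValue K ℝ) {c : Bool} {x : K}
    (h : c = true ↔ 1 < v x) : v (sc c x) ≤ 1 := by
  cases c with
  | false =>
    show v (if false = true then x⁻¹ else x) ≤ 1
    rw [if_neg Bool.false_ne_true]
    exact not_lt.1 fun h1 => Bool.false_ne_true (h.2 h1)
  | true =>
    show v (if true = true then x⁻¹ else x) ≤ 1
    rw [if_pos rfl, map_inv₀]
    exact inv_le_one_of_one_le₀ (h.1 rfl).le

theorem tm_chart {K : Type*} [Field K] {n : ℕ} (f : MvPolynomial (Fin n) K) (e : Fin n → ℕ)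
    (he : ∀ i, f.degreeOf i ≤ e i) (v : AbsoluteValue K ℝ) (χ : Fin n → Bool) (x : Fin n → K)
    (hx : ∀ i, x i ≠ 0) (hf : eval x f ≠ 0) (hχ : ∀ t, χ t = true ↔ 1 < v (x t)) :
    tm f e x v = - Real.log (v (eval (fun t => sc (χ t) (x t)) (chp χ e f))) := by
  have h1 := aeval_chp_mul (L := K) χ e f he x fun i _ => hx i
  rw [aeval_eq_eval, aeval_eq_eval] at h1
  obtain ⟨y, hy⟩ : ∃ y, y = eval (fun t => sc (χ t) (x t)) (chp χ e f) := ⟨_, rfl⟩
  rw [← hy] at h1 ⊢
  have hy0 : y ≠ 0 := by
    rintro rfl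
    rw [zero_mul] at h1
    exact hf h1.symm
  have hp : ∀ i, (if χ i = true then x i ^ e i else 1) ≠ 0 := by
    intro i
    split_ifs
    · exact pow_ne_zero _ (hx i)
    · exact one_ne_zero
  have h2 : Real.log (v (∏ i, (if χ i = true then x i ^ e i else 1))) =
      ∑ i, (e i : ℝ) * Real.log (max 1 (v (x i))) := by
    rw [map_prod, Real.log_prod fun i _ => (v.pos (hp i)).ne']
    refine Finset.sum_congr rfl fun i _ => ?_
    by_cases h3 : χ i = true
    · rw [if_pos h3, map_pow, Real.log_pow, max_eq_right ((hχ i).1 h3).le]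
    · rw [if_neg h3, map_one, Real.log_one, max_eq_left (not_lt.1 fun h4 => h3 ((hχ i).2 h4)),
        Real.log_one, mul_zero]
  unfold tm
  rw [← h1, map_mul, Real.log_mul (v.pos hy0).ne'
    (v.pos (Finset.prod_ne_zero_iff.2 fun i _ => hp i)).ne', h2]
  ring

end Pool.Agent.Lib.MP_17a322_nt.VD
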