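import Pool.Agent.Lib.MP_17a322_nt.VD.D20
import Pool.Agent.Lib.MP_17a322_nt.VD.D21

/-!
# JOB VD D22: Vojta's inequality, proximity part

PROOF of `PROX`. Model: the proof of `final` (VN/Z10). `n = 0`: all `x` are equal, take `G = 1` and `C` the left side. `n > 0`: by contradiction (`push Not`); `exists_generic_seq` (Z5) with the bad sets `{p | ε * ∑ logHeight₁ (p.1.1 i) + ν < LHS p}` and `G₀ = (∏ t, X t) * f`: `x ν t ≠ 0`, `eval (x ν) f ≠ 0` for all `ν`.
`H ν = ∑ i, logHeight₁ (x ν i)`. `PROX_le`, `height_eval`: `ν < LHS ≤ D * H ν + C₁` with `D = ∑ (e i + degreeOf i f) + 1`, so `H → ∞` (as in Z10). `N = ∑ v : InfinitePlace K, mult v + card S + 1 > 0`. For every `ν` there is `v` (an infinite place or a member of `S`: index `p : InfinitePlace K ⊕ S`) with `ε / N * H ν ≤ tm f e (x ν) v`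
(otherwise `LHS ≤ N * (ε / N * H ν)`, as `H ν ≥ 0`), and the chart `χ t = decide (1 < v (x ν t))`. `eventually_exists_fintype` for the finite type `(InfinitePlace K ⊕ S) × (Fin n → Bool)`: one `(v₀, χ)` for almost all `ν`. `Pl v₀`: `Pl_infinite`, `Pl_finite` (D21c). `no_prox` (D20) with `s ν t = sc (χ t) (x ν t)`, `y`, `P` as in Z10, `f := chp χ e f ≠ 0` (`chp_ne_zero`), `ε := ε / N`, `hle`: `sc_le_one`, `hgain`: `tm_chart` (only for the `ν` with `hχ`), `hgen` as in Z10 (`eval_sc_ne_zero`).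
Split it into lemmas as convenient.
-/

universe u

namespace Pool.Agent.Lib.MP_17a322_nt.VD

open MvPolynomial Height Filter
open Pool.Agent.Lib.MP_17a322_nt.RO
open Pool.Agent.Lib.MP_17a322_nt.VJ
open Pool.Agent.Lib.MP_17a322_nt.VN

/-- The absolute value of an index. -/
private noncomputable def D22_av {K : Type*} [Field K] [NumberField K]
    (S : Finset (NumberField.FinitePlace K)) :
    NumberField.InfinitePlace K ⊕ S → AbsoluteValue K ℝ :=
  Sum.elim (fun v => v.val) (fun v => v.1.val)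

private theorem D22_Pl {K : Type*} [Field K] [NumberField K]
    (S : Finset (NumberField.FinitePlace K)) (q : NumberField.InfinitePlace K ⊕ S) :
    Pl (D22_av S q) := by
  rcases q with v | v
  · exact Pl_infinite v
  · exact Pl_finite v.1

/-- If all terms are small then the sum is small. -/
private theorem D22_sum {K : Type*} [Field K] [NumberField K] {n : ℕ}
    (f : MvPolynomial (Fin n) K) (e : Fin n → ℕ) (S : Finset (NumberField.FinitePlace K))
    (x : Fin n → K) (c : ℝ) (hc : 0 ≤ c)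
    (h : ∀ q : NumberField.InfinitePlace K ⊕ S, tm f e x (D22_av S q) ≤ c) :
    (∑ v : NumberField.InfinitePlace K, (v.mult : ℝ) * tm f e x v) + ∑ v ∈ S, tm f e x v ≤
      (∑ v : NumberField.InfinitePlace K, (v.mult : ℝ) + S.card + 1) * c := by
  have h1 : ∑ v : NumberField.InfinitePlace K, (v.mult : ℝ) * tm f e x v ≤
      ∑ v : NumberField.InfinitePlace K, (v.mult : ℝ) * c :=
    Finset.sum_le_sum fun v _ => mul_le_mul_of_nonneg_left (h (Sum.inl v)) (Nat.cast_nonneg _)
  have h2 : ∑ v ∈ S, tm f e x v ≤ ∑ _v ∈ S, c :=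
    Finset.sum_le_sum fun v hv => h (Sum.inr ⟨v, hv⟩)
  rw [← Finset.sum_mul] at h1
  rw [Finset.sum_const, nsmul_eq_mul] at h2
  have h3 : (∑ v : NumberField.InfinitePlace K, (v.mult : ℝ) + S.card + 1) * c =
      (∑ v : NumberField.InfinitePlace K, (v.mult : ℝ)) * c + S.card * c + c := by ring
  rw [h3]
  linarith

theorem PROX {K : Type u} [Field K] [NumberField K] {n : ℕ}
    (W : Fin n → WeierstrassCurve K) [∀ i, (W i).IsElliptic]
    (f : MvPolynomial (Fin n) K) (hf : f ≠ 0) (e : Fin n → ℕ) (he : ∀ i, f.degreeOf i ≤ e i)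
    (S : Finset (NumberField.FinitePlace K)) (ε : ℝ) (hε : 0 < ε) :
    ∃ G : MvPolynomial (Fin n) K, G ≠ 0 ∧ ∃ C : ℝ, ∀ x y : Fin n → K,
      (∀ i, (W i).toAffine.Nonsingular (x i) (y i)) → eval x G ≠ 0 →
        (∑ v : NumberField.InfinitePlace K, (v.mult : ℝ) * tm f e x v) + ∑ v ∈ S, tm f e x v ≤
          ε * ∑ i, logHeight₁ (x i) + C := by
  classical
  rcases Nat.eq_zero_or_pos n with hn | hn
  · subst hn
    refine ⟨1, one_ne_zero,
      ((∑ v : NumberField.InfinitePlace K, (v.mult : ℝ) * tm f e (fun _ => (0 : K)) v) +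
        ∑ v ∈ S, tm f e (fun _ => (0 : K)) v) -
      ε * ∑ i : Fin 0, logHeight₁ ((fun _ => (0 : K)) i), fun x y _ _ => ?_⟩
    have hx : x = fun _ => 0 := Subsingleton.elim _ _
    rw [hx]
    linarith
  · by_contra hcon
    push Not at hcon
    -- the sequence
    obtain ⟨P, hPbad, hPG₀, hPgen⟩ := exists_generic_seq
      (T := {p : (Fin n → K) × (Fin n → K) // ∀ i, (W i).toAffine.Nonsingular (p.1 i) (p.2 i)})
      (fun p => p.1.1)
      (fun ν => {p | ε * ∑ i, logHeight₁ (p.1.1 i) + ν <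
        (∑ v : NumberField.InfinitePlace K, (v.mult : ℝ) * tm f e p.1.1 v) +
          ∑ v ∈ S, tm f e p.1.1 v})
      ((∏ t, X t) * f)
      (mul_ne_zero (Finset.prod_ne_zero_iff.2 fun t _ => MvPolynomial.X_ne_zero t) hf)
      (fun G hG ν => by
        obtain ⟨x, y, hxy, hx, hlt⟩ := hcon G hG ν
        exact ⟨⟨(x, y), hxy⟩, hlt, hx⟩)
    obtain ⟨x, hxP⟩ : ∃ x : ℕ → Fin n → K, x = fun ν => (P ν).1.1 := ⟨_, rfl⟩
    obtain ⟨y, hyP⟩ : ∃ y : ℕ → Fin n → K, y = fun ν => (P ν).1.2 := ⟨_, rfl⟩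
    have hxy : ∀ ν i, (W i).toAffine.Nonsingular (x ν i) (y ν i) := fun ν => by
      rw [hxP, hyP]
      exact (P ν).2
    have hbad : ∀ ν : ℕ, ε * ∑ i, logHeight₁ (x ν i) + ν <
        (∑ v : NumberField.InfinitePlace K, (v.mult : ℝ) * tm f e (x ν) v) +
          ∑ v ∈ S, tm f e (x ν) v := fun ν => by
      rw [hxP]
      exact hPbad ν
    have hG₀ : ∀ ν, eval (x ν) ((∏ t, X t) * f) ≠ 0 := fun ν => by
      rw [hxP]
      exact hPG₀ ν
    have hgen : ∀ G : MvPolynomial (Fin n) K, G ≠ 0 → ∀ᶠ ν in atTop, eval (x ν) G ≠ 0 :=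
      fun G hG => by
        rw [hxP]
        exact hPgen G hG
    have hx0 : ∀ ν t, x ν t ≠ 0 := by
      intro ν t
      have h1 := hG₀ ν
      rw [map_mul, map_prod] at h1
      have h2 := Finset.prod_ne_zero_iff.1 (left_ne_zero_of_mul h1) t (Finset.mem_univ t)
      rwa [eval_X] at h2
    have hf1 : ∀ ν, eval (x ν) f ≠ 0 := by
      intro ν
      have h1 := hG₀ ν
      rw [map_mul] at h1
      exact right_ne_zero_of_mul h1
    -- heights tend to infinity
    obtain ⟨H, hHdef⟩ : ∃ H : ℕ → ℝ, H = fun ν => ∑ i, logHeight₁ (x ν i) := ⟨_, rfl⟩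
    have hHv : ∀ ν, ∑ i, logHeight₁ (x ν i) = H ν := fun ν => by rw [hHdef]
    have hH0 : ∀ ν, 0 ≤ H ν := fun ν => by
      rw [← hHv]
      exact Finset.sum_nonneg fun i _ => zero_le_logHeight₁ _
    obtain ⟨C₁, hC₁0, hC₁⟩ := height_eval f
    obtain ⟨D, hD⟩ : ∃ D : ℝ, D = ∑ i, (e i : ℝ) + ∑ i, (f.degreeOf i : ℝ) + 1 := ⟨_, rfl⟩
    have hD0 : 0 < D := by
      rw [hD]
      have h1 : 0 ≤ ∑ i, (e i : ℝ) := Finset.sum_nonneg fun i _ => Nat.cast_nonneg _
      have h2 : 0 ≤ ∑ i, (f.degreeOf i : ℝ) := Finset.sum_nonneg fun i _ => Nat.cast_nonneg _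
      linarith
    have hsum : ∀ (a : Fin n → ℕ) (ν : ℕ), ∑ i, (a i : ℝ) * logHeight₁ (x ν i) ≤
        (∑ i, (a i : ℝ)) * H ν := by
      intro a ν
      rw [Finset.sum_mul]
      refine Finset.sum_le_sum fun i _ => mul_le_mul_of_nonneg_left ?_ (Nat.cast_nonneg _)
      rw [← hHv]
      exact Finset.single_le_sum (f := fun i => logHeight₁ (x ν i))
        (fun i _ => zero_le_logHeight₁ _) (Finset.mem_univ i)
    have hHge : ∀ ν : ℕ, ((ν : ℝ) - C₁) / D ≤ H ν := by
      intro ν
      rw [div_le_iff₀ hD0]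
      have h1 := hbad ν
      have h2 := PROX_le f e S (x ν) (hf1 ν)
      have h3 := hC₁ (x ν)
      have h4 := hsum e ν
      have h5 := hsum (fun i => f.degreeOf i) ν
      rw [hHv] at h1
      have h6 := mul_nonneg hε.le (hH0 ν)
      have h7 := hH0 ν
      have h8 : H ν * D = (∑ i, (e i : ℝ)) * H ν + (∑ i, (f.degreeOf i : ℝ)) * H ν + H ν := by
        rw [hD]
        ring
      rw [h8]
      linarith
    have hHtop : Tendsto H atTop atTop :=
      tendsto_atTop_mono hHge
        ((tendsto_atTop_add_const_right _ (-C₁) tendsto_natCast_atTop_atTop).atTop_div_const hD0)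
    -- one place and one chart
    obtain ⟨N, hN⟩ : ∃ N : ℝ, N = ∑ v : NumberField.InfinitePlace K, (v.mult : ℝ) + S.card + 1 :=
      ⟨_, rfl⟩
    have hN0 : 0 < N := by
      rw [hN]
      have h1 : 0 ≤ ∑ v : NumberField.InfinitePlace K, (v.mult : ℝ) :=
        Finset.sum_nonneg fun i _ => Nat.cast_nonneg _
      have h2 : (0 : ℝ) ≤ S.card := Nat.cast_nonneg _
      linarith
    have hchart : ∀ᶠ ν in (hyperfilter ℕ : Filter ℕ),
        ∃ q : (NumberField.InfinitePlace K ⊕ S) × (Fin n → Bool),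
          ε / N * H ν ≤ tm f e (x ν) (D22_av S q.1) ∧
            ∀ t, q.2 t = true ↔ 1 < D22_av S q.1 (x ν t) := by
      refine Eventually.of_forall fun ν => ?_
      by_contra hc
      push Not at hc
      have h1 : ∀ q : NumberField.InfinitePlace K ⊕ S,
          tm f e (x ν) (D22_av S q) ≤ ε / N * H ν := by
        intro q
        by_contra hq
        have h2 := hc (q, fun t => decide (1 < D22_av S q (x ν t))) (not_le.1 hq).le
        obtain ⟨t, ht⟩ := h2
        rcases ht with ⟨h3, h4⟩ | ⟨h3, h4⟩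
        · exact absurd (of_decide_eq_true h3) (not_lt.2 h4)
        · exact h3 (decide_eq_true h4)
      have h3 := D22_sum f e S (x ν) (ε / N * H ν)
        (mul_nonneg (div_nonneg hε.le hN0.le) (hH0 ν)) h1
      rw [← hN] at h3
      have h4 : N * (ε / N * H ν) = ε * H ν := by
        field_simp
      have h5 := hbad ν
      rw [hHv] at h5
      have h6 : (0 : ℝ) ≤ ν := Nat.cast_nonneg _
      linarith
    obtain ⟨⟨q, χ⟩, hχ⟩ := eventually_exists_fintype _ _ hchart
    -- apply the theorem on sequences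
    have hHN : ∀ ν, HN (fun t => WeierstrassCurve.Affine.Point.some (x ν t) (y ν t) (hxy ν t)) =
        H ν := by
      intro ν
      rw [← hHv]
      unfold HN
      refine Finset.sum_congr rfl fun t _ => ?_
      rw [WeierstrassCurve.Affine.Point.xRep_some]
      exact (logHeight₁_eq_logHeight _).symm
    refine no_prox W χ
      (fun ν t => WeierstrassCurve.Affine.Point.some (x ν t) (y ν t) (hxy ν t))
      (fun ν t => sc (χ t) (x ν t))
      (fun ν t => (if χ t then (sc (χ t) (x ν t)) ^ 2 else 1) *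
        (2 * y ν t + (W t).a₁ * x ν t + (W t).a₃)) ?_ (fun ν t => ?_)
      (fun ν t => CH_some _ _ (hx0 ν t)) (fun ν t => ph_sc _ (hxy ν t) (hx0 ν t))
      (fun G hG => ?_) (D22_av S q) (D22_Pl S q) ?_ (chp χ e f) (chp_ne_zero χ e f he hf)
      (ε / N) (div_pos hε hN0) ?_
    · simp only [hHN]
      exact hHtop.mono_left Nat.hyperfilter_le_atTop
    · exact WeierstrassCurve.Affine.Point.some_ne_zero _
    · have h1 := (hgen (chp χ (fun t => G.degreeOf t) G)
        (chp_ne_zero χ _ G (fun _ => le_rfl) hG)).filter_mono Nat.hyperfilter_le_atTop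
      filter_upwards [h1] with ν hν
      exact eval_sc_ne_zero χ _ G (fun _ => le_rfl) (x ν) (hx0 ν) hν
    · filter_upwards [hχ] with ν hν
      exact fun t => sc_le_one _ (hν.2 t)
    · filter_upwards [hχ] with ν hν
      rw [hHN, ← tm_chart f e he (D22_av S q) χ (x ν) (hx0 ν) (hf1 ν) hν.2]
      exact hν.1

end Pool.Agent.Lib.MP_17a322_nt.VD
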