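import Pool.Agent.Lib.MP_17a322_nt.VD.D22

/-!
# Vojta's inequality with arbitrary divisors on products of elliptic curves
-/

universe u

namespace Pool.Agent.Lib.MP_17a322_nt.VD

open MvPolynomial Height

theorem final {K : Type u} [Field K] [NumberField K] {n : ℕ}
    (W : Fin n → WeierstrassCurve K) [∀ i, (W i).IsElliptic]
    (m : ℕ) (g : Fin m → MvPolynomial (Fin n) K) (d : Fin n → ℕ)
    (hd : ∀ k i, (g k).degreeOf i ≤ d i)
    (hY : ∀ (F : Type u) [Field F] [Algebra K F] (X Z : Fin n → F),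
      (∀ i, X i ≠ 0 ∨ Z i ≠ 0) →
      (∀ k, ∑ e ∈ (g k).support, algebraMap K F ((g k).coeff e) *
        ∏ i, (X i ^ e i * Z i ^ (d i - e i)) = 0) →
        Algebra.trdeg K (IntermediateField.adjoin K (Set.range fun i => X i / Z i)) + 1 < n)
    (f : MvPolynomial (Fin n) K) (hf : f ≠ 0) (e : Fin n → ℕ) (he : ∀ i, f.degreeOf i ≤ e i)
    (S : Finset (NumberField.FinitePlace K)) (ε : ℝ) (hε : 0 < ε) :
    ∃ G : MvPolynomial (Fin n) K, G ≠ 0 ∧ f ∣ G ∧ ∃ C : ℝ, ∀ x y : Fin n → K,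
      (∀ i, (W i).toAffine.Nonsingular (x i) (y i)) → eval x G ≠ 0 →
        (∑ i, (d i : ℝ) * logHeight₁ (x i) - logHeight (fun k => eval x (g k))) +
        ((∑ v : NumberField.InfinitePlace K, (v.mult : ℝ) *
            (∑ i, (e i : ℝ) * Real.log (max 1 (v (x i))) - Real.log (v (eval x f)))) +
          ∑ v ∈ S,
            (∑ i, (e i : ℝ) * Real.log (max 1 (v (x i))) - Real.log (v (eval x f)))) ≤
          ε * ∑ i, logHeight₁ (x i) + C := by
  obtain ⟨G₁, hG₁, C₁, h₁⟩ := VN.final W m g d hd hY (ε / 2) (half_pos hε)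
  obtain ⟨G₂, hG₂, C₂, h₂⟩ := PROX W f hf e he S (ε / 2) (half_pos hε)
  refine ⟨f * (G₁ * G₂), mul_ne_zero hf (mul_ne_zero hG₁ hG₂), dvd_mul_right _ _, C₁ + C₂,
    fun x y hxy hG => ?_⟩
  rw [map_mul, map_mul] at hG
  have h3 := right_ne_zero_of_mul hG
  have h4 := h₁ x y hxy (left_ne_zero_of_mul h3)
  have h5 := h₂ x y hxy (right_ne_zero_of_mul h3)
  simp only [tm] at h5
  linarith

end Pool.Agent.Lib.MP_17a322_nt.VD
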