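import Pool.Agent.Lib.MP_17a322_nt.VN.DefsC
import Pool.Agent.Lib.MP_17a322_nt.VN.L0

/-!
Definitions for Vojta's inequality with arbitrary divisors on products of elliptic curves: joint
vanishing conditions for `m` blocks along `z 0 = 0`.
-/

universe u

namespace Pool.Agent.Lib.MP_17a322_nt.VD

open MvPolynomial Height
open Pool.Agent.Lib.MP_17a322_nt.RO
open Pool.Agent.Lib.MP_17a322_nt.VJ
open Pool.Agent.Lib.MP_17a322_nt.VN

/-- The product over the blocks of the coefficients of the block polynomials with respect to the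
centre data: a polynomial in `x t` (`Sum.inl t`) and `Z (i, t)` (`Sum.inr (i, t)`). -/
noncomputable def GJ {K : Type*} [Field K] {n e m : ℕ} (ρ : Fin m → REP K n e)
    (W : Fin n → WeierstrassCurve K) (χ : Fin n → Bool) (j b : Fin m → ℕ)
    (c ε : Fin m → Fin n → Bool) (l : Fin m → Fin (e + 1)) (ν : Fin m → Fin n → ℕ) :
    MvPolynomial (Fin n ⊕ (Fin m × Fin n)) K :=
  ∏ i, rename (Sum.map id fun t => (i, t)) (GG (ρ i) (UU W χ (j i) (b i) (c i) (ε i) (ν i)) (l i))

/-- Specialisation `x = x0`. -/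
noncomputable def spj {K L : Type*} [CommRing K] [CommRing L] [Algebra K L] {n : ℕ} {τ : Type*}
    (x0 : Fin n → L) (P : MvPolynomial (Fin n ⊕ τ) K) : MvPolynomial τ L :=
  aeval (Sum.elim (fun t => (C (x0 t) : MvPolynomial τ L)) X) P

/-- The weight of the exponents of the variables `Z (i, 0)`. -/
def wj {m k : ℕ} (j : Fin m → ℕ) (β : Fin m × Fin (k + 1) → ℕ) : ℕ :=
  ∑ i, 4 ^ j i * β (i, 0)

/-- The joint vanishing condition of weight `T` for the family `Φ` at the point `x0`. -/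
def ORJ {K : Type*} [Field K] {k e m : ℕ} (ρ : Fin m → REP K (k + 1) e)
    (W : Fin (k + 1) → WeierstrassCurve K) (χ : Fin (k + 1) → Bool) (j b : Fin m → ℕ) (T : ℕ)
    {L : Type*} [Field L] [Algebra K L] {A : Type*} [CommRing A] [Algebra L A]
    (Φ : (Fin m → Fin (k + 1) → ℕ) → A) (x0 : Fin (k + 1) → L) : Prop :=
  ∀ (c ε : Fin m → Fin (k + 1) → Bool) (l : Fin m → Fin (e + 1))
    (β : Fin m × Fin (k + 1) →₀ ℕ), wj j β < T →
    ∑ ν ∈ BB (fun i => b i + 1),
      Φ ν * algebraMap L A (coeff β (spj x0 (GJ ρ W χ j b c ε l ν))) = 0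

/-- Exponents of the variables `x` and `Z`. -/
noncomputable def sfj {n : ℕ} {τ : Type*} [Finite τ] (q : Fin n → ℕ) (β : τ → ℕ) :
    Fin n ⊕ τ →₀ ℕ :=
  Finsupp.equivFunOnFinite.symm (Sum.elim q β)

/-- The coefficient of the unknown `F a ν` in the linear equation for the exponents `q`, `β`. -/
noncomputable def MJ {K : Type*} [Field K] {k e m : ℕ} (ρ : Fin m → REP K (k + 1) e)
    (W : Fin (k + 1) → WeierstrassCurve K) (χ : Fin (k + 1) → Bool) (j b : Fin m → ℕ)
    (c ε : Fin m → Fin (k + 1) → Bool) (l : Fin m → Fin (e + 1)) (q : Fin (k + 1) → ℕ)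
    (β : Fin m × Fin (k + 1) → ℕ) (a : Fin (k + 1) → ℕ) (ν : Fin m → Fin (k + 1) → ℕ) : K :=
  coeff (sfj q β) ((∏ t, X (Sum.inl t) ^ a t) * GJ ρ W χ j b c ε l ν)

/-- The linear equations for the auxiliary polynomial: `m` blocks, `b = N * 4 ^ J`,
`b_i = N * 4 ^ (J - j i)`, joint conditions of weight `m * 4 ^ J`. -/
def CJ {K : Type*} [Field K] {k e m : ℕ} (ρ : Fin m → REP K (k + 1) e)
    (W : Fin (k + 1) → WeierstrassCurve K) (χ : Fin (k + 1) → Bool) (N J : ℕ) (j : Fin m → ℕ)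
    (F : (Fin (k + 1) → ℕ) → (Fin m → Fin (k + 1) → ℕ) → K) : Prop :=
  ∀ (c ε : Fin m → Fin (k + 1) → Bool) (l : Fin m → Fin (e + 1)) (q : Fin (k + 1) → ℕ)
    (β : Fin m × Fin (k + 1) → ℕ), wj j β < m * 4 ^ J →
    ∑ a ∈ box (fun _ : Fin (k + 1) => N * 4 ^ J + 1),
      ∑ ν ∈ BB (fun i : Fin m => N * 4 ^ (J - j i) + 1),
        F a ν * MJ ρ W χ j (fun i => N * 4 ^ (J - j i)) c ε l q β a ν = 0

/-- The exponents of the variables `Z` which occur in the conditions. -/
def BT {m k : ℕ} (J : ℕ) (j : Fin m → ℕ) (E : Fin m → ℕ) :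
    Finset (Fin m × Fin (k + 1) → ℕ) :=
  (Fintype.piFinset fun p => Finset.range (E p.1)).filter fun β => wj j β < m * 4 ^ J

/-- Exponent in the estimates. -/
def CD (k D : ℕ) : ℕ := 8 * (k + 1) ^ 3 * (D + 1) ^ 2

/-- Exponent of the local constant. -/
def CG (k D : ℕ) : ℕ := 200 * (200 * (k + 1) + ((k + 1) * D + 4) * CD k D)

/-- The joint gain at the place `v`. -/
noncomputable def gjv {L : Type*} [Field L] (v : AbsoluteValue L ℝ) {m : ℕ} {ι : Type*}
    (j : Fin m → ℕ) (s : Fin m → ι → L) (a : Fin m → L) : ℝ :=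
  open Classical in
  if ∀ i t, v (s i t) ≤ 1 then ⨅ i, (- Real.log (min 1 (v (a i)))) / 4 ^ j i else 0

/-- The joint gain. -/
noncomputable def gj {L : Type*} [Field L] [AdmissibleAbsValues L] {m : ℕ} {ι : Type*}
    (j : Fin m → ℕ) (s : Fin m → ι → L) (a : Fin m → L) : ℝ :=
  gs fun v => gjv v j s a

/-- The local size of the joint gain. -/
noncomputable def dlj {L : Type*} [Field L] (v : AbsoluteValue L ℝ) {m : ℕ} {ι : Type*}
    (j : Fin m → ℕ) (s : Fin m → ι → L) (a : Fin m → L) : ℝ :=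
  Real.exp (- gjv v j s a)

/-- The inequality over `K`: `h` the height of the auxiliary polynomial, `H` the height of the base
point, `g` the joint gain, `E i` the heights of the differences, `hP i` the heights of the points, `a` the
order in `T`. -/
def INEJ {m : ℕ} (C h H g : ℝ) (N J : ℕ) (j : Fin m → ℕ) (E hP : Fin m → ℝ) (a : ℕ) : Prop :=
  0 ≤ h + C * 4 ^ J + 2 * N * 4 ^ J * H +
    ∑ i, (4 * 4 ^ j i * H + 2 * N * 4 ^ (J - j i) * E i) - m * 4 ^ J * g +
    a * ∑ i, (4 ^ j i : ℝ)⁻¹ * (C * (4 ^ j i + hP i) + 2 * E i)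

/-- The term of the proximity function at the absolute value `v`. -/
noncomputable def tm {K : Type*} [Field K] {n : ℕ} (f : MvPolynomial (Fin n) K) (e : Fin n → ℕ)
    (x : Fin n → K) (v : K → ℝ) : ℝ :=
  ∑ i, (e i : ℝ) * Real.log (max 1 (v (x i))) - Real.log (v (eval x f))

end Pool.Agent.Lib.MP_17a322_nt.VD
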